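import Pool.Agent.Lib_helper32.JO.N0

/-! JOB, block SML: small `K` -/

set_option autoImplicit false

namespace Pool.Agent.JO

open Complex MeasureTheory Filter Topology
open UpperHalfPlane hiding I
open scoped MatrixGroups ComplexConjugate ENNReal

variable {N : ℕ} [NeZero N]

theorem sml_norm_cpow {p : ℕ} (hp : 0 < p) (κ : ℝ) :
    ‖(p : ℂ) ^ (2 * κ * I)‖ = 1 ∧ ‖(p : ℂ) ^ (-(2 * κ * I))‖ = 1 := by
  constructor
  · rw [norm_natCast_cpow_of_pos hp]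
    simp
  · rw [norm_natCast_cpow_of_pos hp]
    simp

theorem sml_inv_mem {p : ℕ} (hp : p.Coprime N) {v : ZMod N × ZMod N} (hv : v ∈ PV N) :
    ((p : ZMod N)⁻¹ * v.1, (p : ZMod N)⁻¹ * v.2) ∈ PV N := by
  have h1 : ((p : ZMod N) * ((p : ZMod N)⁻¹ * v.1), (p : ZMod N) * ((p : ZMod N)⁻¹ * v.2)) = v := by
    rw [← mul_assoc, ← mul_assoc, ZMod.coe_mul_inv_eq_one p hp, one_mul, one_mul]
  refine ((mul_mem_PV ((p : ZMod N)⁻¹ * v.1, (p : ZMod N)⁻¹ * v.2) p).1 ?_).1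
  simp only []
  rw [h1]
  exact hv

theorem app_small_pr {a : ZMod N × ZMod N → ℝ → ℂ} (hm : ∀ v, Measurable (a v))
    (ha : ∀ v ∈ PV N, Integrable fun κ : ℝ => ‖a v κ‖ ^ 2) (lam : ℕ → ℂ) (K₀ d : ℝ)
    (hK₀ : 1 ≤ K₀) (hd : 0 < d) : ∃ C : ℝ, 0 ≤ C ∧
      ∀ K P : ℝ, 1 ≤ K → K ≤ K₀ → 1 ≤ P → P ≤ K ^ d → ∀ (l : ℂ) (PP : Finset ℕ), ‖l‖ ≤ 1 →
        PPok N lam P PP →
        ∑ v ∈ PV N, ∫⁻ κ in {κ : ℝ | K ≤ |κ| ∧ |κ| ≤ 2 * K},
          ENNReal.ofReal (‖App1 l PP a v κ‖ ^ 2 * Real.exp (Real.pi * |κ|)) ≤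
        ENNReal.ofReal C := by
  set A : ℝ → ℝ := fun κ => ∑ v ∈ PV N, ‖a v κ‖ ^ 2 with hA
  have hAint : Integrable A := integrable_finsetSum _ fun v hv => ha v hv
  have hA0 : ∀ κ, 0 ≤ A κ := fun κ => Finset.sum_nonneg fun v _ => by positivity
  set n₀ : ℝ := 2 * K₀ ^ d + 1 with hn₀
  have hn₀0 : 0 ≤ n₀ := by
    have : 0 ≤ K₀ ^ d := Real.rpow_nonneg (by linarith) d
    simp only [hn₀]; linarith
  set c : ℝ := (1 + 3 * n₀) ^ 2 * Real.exp (2 * Real.pi * K₀) with hc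
  have hc0 : 0 ≤ c := by positivity
  have hI0 : 0 ≤ ∫ κ, A κ := integral_nonneg hA0
  refine ⟨((PV N).card : ℝ) * (c * ∫ κ, A κ), by positivity, ?_⟩
  intro K P hK hKK₀ hP hPK l PP hl hPP
  have hcard : (PP.card : ℝ) ≤ n₀ := by
    have h1 : PP ⊆ Finset.range (⌊2 * P⌋₊ + 1) := by
      intro p hp
      rw [Finset.mem_range, Nat.lt_succ_iff]
      exact Nat.le_floor (hPP p hp).2.2.1
    have h2 : PP.card ≤ ⌊2 * P⌋₊ + 1 := by
      simpa using Finset.card_le_card h1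
    have h3 : ((⌊2 * P⌋₊ : ℕ) : ℝ) ≤ 2 * P := Nat.floor_le (by linarith)
    have h4 : (PP.card : ℝ) ≤ (⌊2 * P⌋₊ : ℝ) + 1 := by exact_mod_cast h2
    have h5 : K ^ d ≤ K₀ ^ d := Real.rpow_le_rpow (by linarith) hKK₀ hd.le
    simp only [hn₀]
    linarith
  -- the pointwise bound
  have hrow : ∀ v ∈ PV N, ∀ κ, ‖a v κ‖ ≤ Real.sqrt (A κ) := by
    intro v hv κ
    refine Real.le_sqrt_of_sq_le ?_
    exact Finset.single_le_sum (f := fun v => ‖a v κ‖ ^ 2) (fun _ _ => by positivity) hv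
  have hApp : ∀ v ∈ PV N, ∀ κ, ‖App1 l PP a v κ‖ ^ 2 ≤ (1 + 3 * n₀) ^ 2 * A κ := by
    intro v hv κ
    have hs0 := Real.sqrt_nonneg (A κ)
    have h1 : ‖App1 l PP a v κ‖ ≤ (1 + 3 * n₀) * Real.sqrt (A κ) := by
      unfold App1 App
      have h2 : ‖l * a v κ‖ ≤ Real.sqrt (A κ) := by
        rw [norm_mul]
        exact (mul_le_of_le_one_left (norm_nonneg _) hl).trans (hrow v hv κ)
      have h3 : ∀ p ∈ PP, ‖(p : ℂ) ^ (2 * κ * I) *
          a ((p : ZMod N)⁻¹ * v.1, (p : ZMod N)⁻¹ * v.2) κ + a v κ +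
          (p : ℂ) ^ (-(2 * κ * I)) * a ((p : ZMod N) * v.1, (p : ZMod N) * v.2) κ‖ ≤
          3 * Real.sqrt (A κ) := by
        intro p hp
        obtain ⟨hpp, _, _, hpN, _⟩ := hPP p hp
        have hcop : p.Coprime N := (Nat.Prime.coprime_iff_not_dvd hpp).2 hpN
        have hv1 := sml_inv_mem hcop hv
        have hv2 : ((p : ZMod N) * v.1, (p : ZMod N) * v.2) ∈ PV N := (mul_mem_PV v p).2 ⟨hv, hcop⟩
        obtain ⟨e1, e2⟩ := sml_norm_cpow hpp.pos κ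
        have h4 := hrow _ hv1 κ
        have h5 := hrow _ hv2 κ
        have h6 := hrow v hv κ
        refine (norm_add_le _ _).trans ?_
        rw [norm_mul, e2, one_mul]
        have h7 := norm_add_le ((p : ℂ) ^ (2 * κ * I) *
          a ((p : ZMod N)⁻¹ * v.1, (p : ZMod N)⁻¹ * v.2) κ) (a v κ)
        rw [norm_mul, e1, one_mul] at h7
        linarith
      refine (norm_add_le _ _).trans ?_
      have h8 := (norm_sum_le PP (fun p : ℕ => (p : ℂ) ^ (2 * κ * I) *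
          a ((p : ZMod N)⁻¹ * v.1, (p : ZMod N)⁻¹ * v.2) κ + a v κ +
          (p : ℂ) ^ (-(2 * κ * I)) * a ((p : ZMod N) * v.1, (p : ZMod N) * v.2) κ)).trans
          (Finset.sum_le_sum h3)
      rw [Finset.sum_const, nsmul_eq_mul] at h8
      have h9 : (PP.card : ℝ) * (3 * Real.sqrt (A κ)) ≤ n₀ * (3 * Real.sqrt (A κ)) :=
        mul_le_mul_of_nonneg_right hcard (by positivity)
      linarith
    calc ‖App1 l PP a v κ‖ ^ 2 ≤ ((1 + 3 * n₀) * Real.sqrt (A κ)) ^ 2 :=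
          pow_le_pow_left₀ (norm_nonneg _) h1 2
      _ = (1 + 3 * n₀) ^ 2 * A κ := by rw [mul_pow, Real.sq_sqrt (hA0 κ)]
  have hone : ∀ v ∈ PV N, ∫⁻ κ in {κ : ℝ | K ≤ |κ| ∧ |κ| ≤ 2 * K},
      ENNReal.ofReal (‖App1 l PP a v κ‖ ^ 2 * Real.exp (Real.pi * |κ|)) ≤
      ENNReal.ofReal (c * ∫ κ, A κ) := by
    intro v hv
    have hmeas : MeasurableSet {κ : ℝ | K ≤ |κ| ∧ |κ| ≤ 2 * K} := by
      have h1 : MeasurableSet {κ : ℝ | K ≤ |κ|} := measurableSet_le measurable_const (by fun_prop)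
      have h2 : MeasurableSet {κ : ℝ | |κ| ≤ 2 * K} := measurableSet_le (by fun_prop) measurable_const
      exact h1.inter h2
    calc ∫⁻ κ in {κ : ℝ | K ≤ |κ| ∧ |κ| ≤ 2 * K},
          ENNReal.ofReal (‖App1 l PP a v κ‖ ^ 2 * Real.exp (Real.pi * |κ|))
        ≤ ∫⁻ κ in {κ : ℝ | K ≤ |κ| ∧ |κ| ≤ 2 * K}, ENNReal.ofReal (c * A κ) := by
          refine setLIntegral_mono' hmeas fun κ hκ => ENNReal.ofReal_le_ofReal ?_
          have h1 := hApp v hv κ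
          have h2 : Real.exp (Real.pi * |κ|) ≤ Real.exp (2 * Real.pi * K₀) := by
            refine Real.exp_le_exp.2 ?_
            have h3 : |κ| ≤ 2 * K := hκ.2
            have hpi := Real.pi_pos
            nlinarith
          calc ‖App1 l PP a v κ‖ ^ 2 * Real.exp (Real.pi * |κ|)
              ≤ ((1 + 3 * n₀) ^ 2 * A κ) * Real.exp (2 * Real.pi * K₀) :=
                mul_le_mul h1 h2 (Real.exp_nonneg _) (mul_nonneg (by positivity) (hA0 κ))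
            _ = c * A κ := by rw [hc]; ring
      _ ≤ ∫⁻ κ, ENNReal.ofReal (c * A κ) := setLIntegral_le_lintegral _ _
      _ = ENNReal.ofReal (∫ κ, c * A κ) := by
          rw [ofReal_integral_eq_lintegral_ofReal (hAint.const_mul c)
            (Eventually.of_forall fun κ => mul_nonneg hc0 (hA0 κ))]
      _ = ENNReal.ofReal (c * ∫ κ, A κ) := by rw [integral_const_mul]
  refine (Finset.sum_le_sum hone).trans ?_
  rw [Finset.sum_const, nsmul_eq_mul,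
    ENNReal.ofReal_mul (p := ((PV N).card : ℝ)) (by positivity), ENNReal.ofReal_natCast]

end Pool.Agent.JO
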